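import Pool.Agent.Q80.KT.Stm

/-!
# Supersolutions bound the expected number of reached vertices
-/

open Finset
open scoped Classical

noncomputable section

namespace Q94.KT.RREC

open Pool.Agent.Q80.KT Pool.Agent.Q287.SR

theorem ind_true {P : Prop} (h : P) : ind P = 1 := by simp [ind, h]

theorem ind_false {P : Prop} (h : ¬ P) : ind P = 0 := by simp [ind, h]

theorem iff_of_ind {P Q : Prop} (h : ind P = ind Q) : P ↔ Q := by
  by_cases hP : P <;> by_cases hQ : Q <;> simp_all [ind]

/-- the pairs from `x` to `U` -/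
def star {n : ℕ} (x : Fin n) (U : Finset (Fin n)) : Finset (Sym2 (Fin n)) := U.image fun y => s(x, y)

theorem mem_star {n : ℕ} {x y : Fin n} {U : Finset (Fin n)} : s(x, y) ∈ star x U ↔ y ∈ U := by
  unfold star
  rw [Finset.mem_image]
  constructor
  · rintro ⟨z, hz, h⟩
    rw [Sym2.congr_right] at h
    exact h ▸ hz
  · intro h
    exact ⟨y, h, rfl⟩

theorem card_star {n : ℕ} (x : Fin n) (U : Finset (Fin n)) : (star x U).card = U.card := by
  unfold star
  apply Finset.card_image_of_injective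
  intro a b h
  exact Sym2.congr_right.1 h

theorem dep_rch (h3 : S_RU) {n : ℕ} (A U : Finset (Fin n)) :
    DepOn {e | ∀ a ∈ e, a ∈ ((A ∪ U : Finset (Fin n)) : Set (Fin n))} fun G => ((rch A U G).card : ℝ) := by
  intro G G' h
  have hr : rch A U G = rch A U G' := by
    ext w
    simp only [rch, Finset.mem_filter, Finset.mem_univ, true_and]
    have key : ∀ x, RU (↑(A ∪ U)) G x w ↔ RU (↑(A ∪ U)) G' x w := fun x =>
      iff_of_ind ((h3 n x w (↑(A ∪ U))).1 G G' h)
    constructor
    · rintro ⟨x, hx, hr⟩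
      exact ⟨x, hx, (key x).1 hr⟩
    · rintro ⟨x, hx, hr⟩
      exact ⟨x, hx, (key x).2 hr⟩
  simp only [hr]

theorem dep_nb {n : ℕ} (x : Fin n) (U J : Finset (Fin n)) :
    DepOn (↑(star x U)) fun G => ind (U.filter (fun y => G.Adj x y) = J) := by
  intro G G' h
  have hr : U.filter (fun y => G.Adj x y) = U.filter (fun y => G'.Adj x y) := by
    apply Finset.filter_congr
    intro y hy
    have := h s(x, y) (by exact_mod_cast mem_star.2 hy)
    simpa using this
  simp only [hr]

/-- the star from `x` to `J` -/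
def sg {n : ℕ} (x : Fin n) (J : Finset (Fin n)) : SimpleGraph (Fin n) :=
  SimpleGraph.fromEdgeSet (↑(star x J) : Set (Sym2 (Fin n)))

theorem mem_sg {n : ℕ} {x y : Fin n} {J : Finset (Fin n)} (hxy : x ≠ y) : s(x, y) ∈ (sg x J).edgeSet ↔ y ∈ J := by
  unfold sg
  rw [SimpleGraph.mem_edgeSet, SimpleGraph.fromEdgeSet_adj]
  constructor
  · rintro ⟨h, _⟩
    exact mem_star.1 (by exact_mod_cast h)
  · intro h
    exact ⟨by exact_mod_cast mem_star.2 h, hxy⟩

theorem filt_iff {n : ℕ} {x : Fin n} {U J : Finset (Fin n)} (hJ : J ⊆ U) (hx : x ∉ U) (G : SimpleGraph (Fin n)) :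
    (U.filter (fun y => G.Adj x y) = J) ↔ ∀ e ∈ star x U, (e ∈ G.edgeSet ↔ e ∈ (sg x J).edgeSet) := by
  constructor
  · intro h e he
    obtain ⟨y, hy, rfl⟩ := Finset.mem_image.1 he
    have hxy : x ≠ y := fun h => hx (h ▸ hy)
    rw [mem_sg hxy, SimpleGraph.mem_edgeSet, ← h, Finset.mem_filter]
    exact ⟨fun h => ⟨hy, h⟩, fun h => h.2⟩
  · intro h
    ext y
    rw [Finset.mem_filter]
    constructor
    · rintro ⟨hy, ha⟩
      have hxy : x ≠ y := fun h => hx (h ▸ hy)
      exact (mem_sg hxy).1 ((h _ (mem_star.2 hy)).1 ha)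
    · intro hy
      have hxy : x ≠ y := fun h => hx (h ▸ hJ hy)
      exact ⟨hJ hy, (h _ (mem_star.2 (hJ hy))).2 ((mem_sg hxy).2 hy)⟩

theorem pr_nb (h2 : S_CONF) {n : ℕ} (p : ℝ) {x : Fin n} {U J : Finset (Fin n)} (hJ : J ⊆ U) (hx : x ∉ U) :
    Ex n p (fun G => ind (U.filter (fun y => G.Adj x y) = J)) = p ^ J.card * (1 - p) ^ (U.card - J.card) := by
  have hsub : star x U ⊆ pairs n := by
    intro e he
    obtain ⟨y, hy, rfl⟩ := Finset.mem_image.1 he
    have hxy : x ≠ y := fun h => hx (h ▸ hy)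
    simp only [pairs, Finset.mem_filter, Finset.mem_univ, true_and]
    simpa using hxy
  have h := h2 n p (star x U) (sg x J) hsub
  have e1 : (star x U).filter (fun e => e ∈ (sg x J).edgeSet) = star x J := by
    ext e
    rw [Finset.mem_filter]
    constructor
    · rintro ⟨he, h⟩
      obtain ⟨y, hy, rfl⟩ := Finset.mem_image.1 he
      have hxy : x ≠ y := fun h => hx (h ▸ hy)
      exact mem_star.2 ((mem_sg hxy).1 h)
    · intro he
      obtain ⟨y, hy, rfl⟩ := Finset.mem_image.1 he
      have hxy : x ≠ y := fun h => hx (h ▸ hJ hy)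
      exact ⟨mem_star.2 (hJ hy), (mem_sg hxy).2 hy⟩
  have e2 : (star x U).filter (fun e => e ∉ (sg x J).edgeSet) = star x (U \ J) := by
    ext e
    rw [Finset.mem_filter]
    constructor
    · rintro ⟨he, h⟩
      obtain ⟨y, hy, rfl⟩ := Finset.mem_image.1 he
      have hxy : x ≠ y := fun h => hx (h ▸ hy)
      exact mem_star.2 (Finset.mem_sdiff.2 ⟨hy, fun hj => h ((mem_sg hxy).2 hj)⟩)
    · intro he
      obtain ⟨y, hy, rfl⟩ := Finset.mem_image.1 he
      have hy' := Finset.mem_sdiff.1 hy
      have hxy : x ≠ y := fun h => hx (h ▸ hy'.1)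
      exact ⟨mem_star.2 hy'.1, fun hj => hy'.2 ((mem_sg hxy).1 hj)⟩
  rw [e1, e2, card_star, card_star, Finset.card_sdiff_of_subset hJ] at h
  rw [← h]
  unfold Pr
  congr 1
  funext G
  rw [propext (filt_iff hJ hx G)]

theorem rch_split (h4 : S_RCH) {n : ℕ} {A U : Finset (Fin n)} {x : Fin n} (hx : x ∈ A) (hd : Disjoint A U)
    (G : SimpleGraph (Fin n)) :
    ((rch A U G).card : ℝ) = 1 + ∑ J ∈ U.powerset,
      ind (U.filter (fun y => G.Adj x y) = J) * ((rch ((A.erase x) ∪ J) (U \ J) G).card : ℝ) := by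
  rw [h4 n A U x G hx hd, Finset.sum_eq_single (U.filter (fun y => G.Adj x y))]
  · rw [ind_true rfl, one_mul, ← Finset.filter_not]
    push_cast
    rfl
  · intro J _ hJ
    rw [ind_false (fun h => hJ h.symm), zero_mul]
  · intro h
    exact absurd (Finset.mem_powerset.2 (Finset.filter_subset _ _)) h

theorem main (h1 : S_IND) (h2 : S_CONF) (h3 : S_RU) (h4 : S_RCH) (n : ℕ) (p : ℝ) (H : ℕ → ℕ → ℝ) (hp0 : 0 ≤ p)
    (hp1 : p ≤ 1) (hH0 : ∀ u, 0 ≤ H 0 u)
    (hH : ∀ a u : ℕ, 1 ≤ a → a + u ≤ n →
      1 + ∑ j ∈ Finset.range (u + 1), (u.choose j : ℝ) * p ^ j * (1 - p) ^ (u - j) * H (a - 1 + j) (u - j) ≤ H a u) :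
    ∀ (m : ℕ) (A U : Finset (Fin n)), A.card + U.card = m → Disjoint A U →
      Ex n p (fun G => ((rch A U G).card : ℝ)) ≤ H A.card U.card := by
  intro m
  induction m using Nat.strong_induction_on with
  | _ m ih =>
    intro A U hm hd
    rcases A.eq_empty_or_nonempty with rfl | ⟨x, hx⟩
    · have : ∀ G : SimpleGraph (Fin n), ((rch ∅ U G).card : ℝ) = 0 := by
        intro G
        simp [rch]
      simp only [this, Finset.card_empty]
      rw [Ex_const]
      exact hH0 _
    · have hxU : x ∉ U := Finset.disjoint_left.1 hd hx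
      have hAc : 1 ≤ A.card := Finset.card_pos.2 ⟨x, hx⟩
      have hle : A.card + U.card ≤ n := by
        rw [← Finset.card_union_of_disjoint hd]
        simpa using Finset.card_le_univ (A ∪ U)
      refine le_trans ?_ (hH A.card U.card hAc hle)
      simp only [rch_split h4 hx hd]
      rw [Ex_add, Ex_const, Ex_sum]
      gcongr 1 + ?_
      have hsum : ∑ j ∈ Finset.range (U.card + 1), (U.card.choose j : ℝ) * p ^ j * (1 - p) ^ (U.card - j) *
          H (A.card - 1 + j) (U.card - j) =
          ∑ J ∈ U.powerset, p ^ J.card * (1 - p) ^ (U.card - J.card) * H (A.card - 1 + J.card) (U.card - J.card) := by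
        rw [Finset.sum_powerset_apply_card
          (fun j => p ^ j * (1 - p) ^ (U.card - j) * H (A.card - 1 + j) (U.card - j))]
        apply Finset.sum_congr rfl
        intro j _
        rw [nsmul_eq_mul]
        ring
      rw [hsum]
      apply Finset.sum_le_sum
      intro J hJ
      have hJU := Finset.mem_powerset.1 hJ
      have hdJ : Disjoint (A.erase x) J := Finset.disjoint_of_subset_left (Finset.erase_subset _ _)
        (Finset.disjoint_of_subset_right hJU hd)
      have hc1 : ((A.erase x) ∪ J).card = A.card - 1 + J.card := by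
        rw [Finset.card_union_of_disjoint hdJ, Finset.card_erase_of_mem hx]
      have hc2 : (U \ J).card = U.card - J.card := Finset.card_sdiff_of_subset hJU
      have hJc : J.card ≤ U.card := Finset.card_le_card hJU
      have hd' : Disjoint ((A.erase x) ∪ J) (U \ J) := by
        rw [Finset.disjoint_union_left]
        exact ⟨Finset.disjoint_of_subset_left (Finset.erase_subset _ _)
          (Finset.disjoint_of_subset_right Finset.sdiff_subset hd), Finset.disjoint_sdiff⟩
      have hi := ih (((A.erase x) ∪ J).card + (U \ J).card) (by rw [hc1, hc2]; omega) ((A.erase x) ∪ J) (U \ J)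
        rfl hd'
      have hind := h1 n p (↑(star x U))
        {e | ∀ a ∈ e, a ∈ ((((A.erase x) ∪ J) ∪ (U \ J) : Finset (Fin n)) : Set (Fin n))} _ _ (dep_nb x U J)
        (dep_rch h3 ((A.erase x) ∪ J) (U \ J)) (by
          rw [Set.disjoint_left]
          intro e he he'
          obtain ⟨y, hy, rfl⟩ := Finset.mem_image.1 (by exact_mod_cast he : e ∈ star x U)
          have hxx := he' x (by simp)
          rw [Finset.mem_coe, Finset.mem_union, Finset.mem_union, Finset.mem_sdiff, Finset.mem_erase] at hxx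
          rcases hxx with (h | h) | h
          · exact h.1 rfl
          · exact hxU (hJU h)
          · exact hxU h.1)
      rw [hind, pr_nb h2 p hJU hxU]
      rw [hc1, hc2] at hi
      apply mul_le_mul_of_nonneg_left hi
      have : 0 ≤ 1 - p := by linarith
      positivity

theorem t_RREC (h1 : S_IND) (h2 : S_CONF) (h3 : S_RU) (h4 : S_RCH) : S_RREC := by
  intro n p H hp0 hp1 hH0 hH A U hd
  exact main h1 h2 h3 h4 n p H hp0 hp1 hH0 hH _ A U rfl hd

end Q94.KT.RREC
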